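import Pool.Agent.Work.MP_f2148a_nt.AV.Fiber

/-!
# Points per form, all ranges together

Proof. For `x ≥ 102` let `n(x)` be the number `n` with `17 * 6 ^ (2 ^ n) ≤ x < 17 * 6 ^ (2 ^ (n + 1))`
(`X_n = 17 * 6 ^ (2 ^ n)`, `X_0 = 102`, `X_n ^ 2 = 17 * X_(n+1)`). As `6 ^ (2 ^ n) ≤ x ≤ exp (exp L)`,
`2 ^ n ≤ 2 ^ n * log 6 ≤ exp L`, so `n ≤ L / log 2 ≤ 2 L` and `n` takes at most `2 L + 1` values.
For fixed `q` and `n` the points `t ∈ T` with `f t = q`, `n(t.1) = n` have the same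
`k = t.2 ^ 2 - t.1 ^ 3 = Dv q / 4`, and `X = X_n` satisfies the hypotheses of `fiber_le`:
`17 t.1 < 17 X_(n+1) = X_n ^ 2`, and `X_n ^ 6 > (17 t.1) ^ 3 ≥ 17 ^ 3 * 102 * K ^ 2 ≥ (100 |k|) ^ 2`
(`K ≤ t.1`, `102 ≤ t.1`), so `100 |k| ≤ X_n ^ 3`. So at most `6` points, and
`T.card ≤ 6 * (2 L + 1) * (T.image f).card` (`Finset.card_le_mul_card_image` for the map
`t ↦ (f t, n(t.1))` into `(T.image f) ×ˢ range (⌊2 L⌋₊ + 1)`).
-/

set_option autoImplicit false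

namespace Pool.Agent.Work.MP_f2148a_nt.AV

open Exp

private theorem ex_n (x : ℤ) : ∃ m : ℕ, x < 17 * 6 ^ (2 ^ (m + 1)) := by
  refine ⟨x.toNat, ?_⟩
  have h1 : x.toNat < 2 ^ x.toNat := Nat.lt_two_pow_self
  have h2 : 2 ^ (x.toNat + 1) < 6 ^ (2 ^ (x.toNat + 1)) := Nat.lt_pow_self (by norm_num)
  have h3 : x.toNat < 6 ^ (2 ^ (x.toNat + 1)) := by
    have : 2 ^ x.toNat ≤ 2 ^ (x.toNat + 1) := Nat.pow_le_pow_right (by norm_num) (by omega)
    omega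
  have h4 : x ≤ (x.toNat : ℤ) := Int.self_le_toNat x
  have h5 : ((x.toNat : ℕ) : ℤ) < 6 ^ (2 ^ (x.toNat + 1)) := by exact_mod_cast h3
  have h6 : (0 : ℤ) < 6 ^ (2 ^ (x.toNat + 1)) := by positivity
  linarith

/-- The index of the dyadic range of `x`. -/
private noncomputable def ix (x : ℤ) : ℕ := by
  classical
  exact Nat.find (ex_n x)

private theorem ix_lt (x : ℤ) : x < 17 * 6 ^ (2 ^ (ix x + 1)) := by
  classical
  unfold ix
  exact Nat.find_spec (ex_n x)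

private theorem ix_le (x : ℤ) (hx : 102 ≤ x) : 17 * 6 ^ (2 ^ (ix x)) ≤ x := by
  classical
  by_cases h : ix x = 0
  · rw [h]; norm_num; exact hx
  · have h1 : ix x - 1 < ix x := by omega
    have h2 : ¬ x < 17 * 6 ^ (2 ^ (ix x - 1 + 1)) := by
      have h3 : ix x = Nat.find (ex_n x) := by unfold ix; rfl
      have h4 := Nat.find_min (ex_n x) (m := ix x - 1) (by omega)
      exact h4
    rw [not_lt] at h2
    rw [show ix x - 1 + 1 = ix x from by omega] at h2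
    exact h2

private theorem ix_bound (x : ℤ) (L : ℝ) (hx : 102 ≤ x) (hxL : (x : ℝ) ≤ Real.exp (Real.exp L)) :
    (ix x : ℝ) ≤ 2 * L := by
  have h1 := ix_le x hx
  have h2 : ((6 : ℝ) ^ (2 ^ (ix x))) ≤ x := by
    have h3 : ((17 * 6 ^ (2 ^ (ix x)) : ℤ) : ℝ) ≤ x := by exact_mod_cast h1
    push_cast at h3
    have h4 : (0 : ℝ) < 6 ^ (2 ^ (ix x)) := by positivity
    linarith
  have h3 : ((2 : ℝ) ^ (ix x)) * Real.log 6 ≤ Real.exp L := by
    have h4 := Real.log_le_log (by positivity) (h2.trans hxL)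
    rw [Real.log_exp, Real.log_pow] at h4
    push_cast at h4
    exact h4
  have h4 : (1 : ℝ) ≤ Real.log 6 := by
    rw [Real.le_log_iff_exp_le (by norm_num)]
    have := Real.exp_one_lt_d9
    linarith
  have h5 : ((2 : ℝ) ^ (ix x)) ≤ Real.exp L := by
    have h6 : (0 : ℝ) < 2 ^ (ix x) := by positivity
    nlinarith
  have h6 := Real.log_le_log (by positivity) h5
  rw [Real.log_exp, Real.log_pow] at h6
  have h7 := Real.log_two_gt_d9
  have h8 : (0 : ℝ) ≤ ix x := Nat.cast_nonneg _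
  nlinarith

theorem count_points (K L B : ℝ) (hL : 1 ≤ L) (T : Finset (ℤ × ℤ))
    (f : ℤ × ℤ → ℤ × ℤ × ℤ × ℤ)
    (hT : ∀ t ∈ T, t.2 ^ 2 ≠ t.1 ^ 3 ∧ |(t.2 : ℝ) ^ 2 - (t.1 : ℝ) ^ 3| ≤ K ∧ K ≤ (t.1 : ℝ) ∧
      102 ≤ t.1 ∧ (t.1 : ℝ) ≤ Real.exp (Real.exp L) ∧
      Dv (f t).1 (f t).2.1 (f t).2.2.1 (f t).2.2.2 = 4 * (t.2 ^ 2 - t.1 ^ 3) ∧
      ∃ p r : ℤ, |Fv (f t).1 (f t).2.1 (f t).2.2.1 (f t).2.2.2 p r| = 1 ∧
        Hv (f t).1 (f t).2.1 (f t).2.2.1 (f t).2.2.2 p r = t.1)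
    (hB : ((T.image f).card : ℝ) ≤ B) : (T.card : ℝ) ≤ 6 * (2 * L + 1) * B := by
  classical
  set U : Finset ((ℤ × ℤ × ℤ × ℤ) × ℕ) := (T.image f) ×ˢ Finset.range (⌊2 * L⌋₊ + 1) with hU
  have hmaps : ∀ t ∈ T, (f t, ix t.1) ∈ U := by
    intro t ht
    obtain ⟨-, -, -, h102, hexp, -⟩ := hT t ht
    rw [hU, Finset.mem_product]
    refine ⟨Finset.mem_image_of_mem f ht, ?_⟩
    rw [Finset.mem_range, Nat.lt_succ_iff]
    exact Nat.le_floor (ix_bound t.1 L h102 hexp)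
  have hfib : ∀ u ∈ U, (T.filter (fun t => (f t, ix t.1) = u)).card ≤ 6 := by
    intro u _
    rcases (T.filter (fun t => (f t, ix t.1) = u)).eq_empty_or_nonempty with h0 | ⟨t0, ht0⟩
    · rw [h0]; simp
    rw [Finset.mem_filter] at ht0
    obtain ⟨ht0, htu0⟩ := ht0
    obtain ⟨g1, g2, g3, g4, g5, g6, g7⟩ := hT t0 ht0
    set X : ℤ := 17 * 6 ^ (2 ^ (u.2)) with hX
    have hu2 : ix t0.1 = u.2 := by rw [← htu0]
    have hu1 : f t0 = u.1 := by rw [← htu0]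
    have hX2 : X ^ 2 = 17 * (17 * 6 ^ (2 ^ (u.2 + 1))) := by
      rw [hX, mul_pow, ← pow_mul, pow_succ]
      ring
    have hX102 : 102 ≤ X := by
      rw [hX]
      have h1 : (6 : ℤ) ^ 1 ≤ 6 ^ (2 ^ u.2) :=
        pow_le_pow_right₀ (by norm_num) Nat.one_le_two_pow
      linarith
    have h17 : 17 * t0.1 < X ^ 2 := by
      rw [hX2, ← hu2]
      have := ix_lt t0.1
      linarith
    have hk : |t0.2 ^ 2 - t0.1 ^ 3| ≤ t0.1 := by
      have h1 : |((t0.2 ^ 2 - t0.1 ^ 3 : ℤ) : ℝ)| ≤ ((t0.1 : ℤ) : ℝ) := by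
        push_cast
        exact g2.trans g3
      exact_mod_cast h1
    refine fiber_le u.1.1 u.1.2.1 u.1.2.2.1 u.1.2.2.2 (t0.2 ^ 2 - t0.1 ^ 3) X ?_ (by linarith) ?_ _ ?_
    · rw [← hu1]; exact g6
    · nlinarith [pow_pos (show (0 : ℤ) < X by linarith) 2]
    · intro t ht
      rw [Finset.mem_filter] at ht
      obtain ⟨ht, htu⟩ := ht
      obtain ⟨k1, k2, k3, k4, k5, k6, k7⟩ := hT t ht
      have hv2 : ix t.1 = u.2 := by rw [← htu]
      have hv1 : f t = u.1 := by rw [← htu]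
      refine ⟨?_, ?_, ?_, ?_⟩
      · rw [hv1, ← hu1, g6] at k6
        linarith
      · rw [hX, ← hv2]
        exact ix_le t.1 k4
      · rw [hX2, ← hv2]
        have := ix_lt t.1
        linarith
      · rw [hv1] at k7
        exact k7
  have hcard := Finset.card_le_mul_card_image_of_maps_to hmaps 6 hfib
  have hUc : U.card = (T.image f).card * (⌊2 * L⌋₊ + 1) := by
    rw [hU, Finset.card_product, Finset.card_range]
  rw [hUc] at hcard
  have h1 : (T.card : ℝ) ≤ 6 * (((T.image f).card : ℝ) * ((⌊2 * L⌋₊ : ℝ) + 1)) := by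
    exact_mod_cast hcard
  have h2 : (⌊2 * L⌋₊ : ℝ) ≤ 2 * L := Nat.floor_le (by linarith)
  have h3 : ((T.image f).card : ℝ) * ((⌊2 * L⌋₊ : ℝ) + 1) ≤ B * (2 * L + 1) := by
    apply mul_le_mul hB (by linarith) (by positivity)
    exact (Nat.cast_nonneg _).trans hB
  nlinarith

end Pool.Agent.Work.MP_f2148a_nt.AV
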