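import Mathlib
import Pool.Agent.Work.MP_f2148a_nt.Exp.GeomA

/-!
# Covariants of a binary cubic form

`F = (a, 3b, 3c, d)`, `Fv` its values, `Dv = 4 k`. `Hv` is the quadratic covariant, `Gv` the cubic
covariant, `Av` the polar form of `Hv`.
-/

set_option autoImplicit false

namespace Pool.Agent.Work.MP_f2148a_nt.AV

open Exp

/-- The quadratic covariant. -/
def Hv (a b c d p r : ℤ) : ℤ :=
  (b ^ 2 - a * c) * p ^ 2 + (b * c - a * d) * p * r + (c ^ 2 - b * d) * r ^ 2

/-- The cubic covariant. -/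
def Gv (a b c d p r : ℤ) : ℤ :=
  (a * p ^ 2 + 2 * b * p * r + c * r ^ 2) * ((b * c - a * d) * p + 2 * (c ^ 2 - b * d) * r) -
    (b * p ^ 2 + 2 * c * p * r + d * r ^ 2) * (2 * (b ^ 2 - a * c) * p + (b * c - a * d) * r)

/-- The polar form of the quadratic covariant. -/
def Av (a b c d p r p' r' : ℤ) : ℤ :=
  2 * (b ^ 2 - a * c) * p * p' + (b * c - a * d) * (p * r' + p' * r) + 2 * (c ^ 2 - b * d) * r * r'

theorem Hv_c (x y a q b s : ℤ) : Hv (cA x y a q) (cB x y a q b s) (cC x y a q b s) (cD x y b s)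
    (-s) q = x * (a * s - q * b) ^ 4 := by
  unfold Hv cA cB cC cD
  ring

theorem syzygy (a b c d p r : ℤ) :
    Gv a b c d p r ^ 2 = 4 * Hv a b c d p r ^ 3 + Dv a b c d * Fv a b c d p r ^ 2 := by
  unfold Gv Hv Dv Fv
  ring

theorem Av_sq (a b c d p r p' r' : ℤ) :
    Av a b c d p r p' r' ^ 2 = 4 * Hv a b c d p r * Hv a b c d p' r' +
      Dv a b c d * (p * r' - p' * r) ^ 2 := by
  unfold Av Hv Dv
  ring

theorem cross (a b c d p r p' r' : ℤ) :
    Fv a b c d p r * Gv a b c d p' r' - Fv a b c d p' r' * Gv a b c d p r =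
      2 * (p * r' - p' * r) * (3 * Hv a b c d p r * Hv a b c d p' r' +
        Dv a b c d * (p * r' - p' * r) ^ 2) := by
  unfold Fv Gv Hv Dv
  ring

theorem Hv_smul (a b c d p r t : ℤ) : Hv a b c d (t * p) (t * r) = t ^ 2 * Hv a b c d p r := by
  unfold Hv
  ring

theorem Fv_smul (a b c d p r t : ℤ) : Fv a b c d (t * p) (t * r) = t ^ 3 * Fv a b c d p r := by
  unfold Fv
  ring

end Pool.Agent.Work.MP_f2148a_nt.AV
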