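import Pool.Agent.Work.MP_f2148a_nt.AV.Gap

/-!
# The number of solutions attached to one cubic form in one range

Proof. `T.image Prod.fst` has at most `3` elements: otherwise take four different values
`x i` (`i : Fin 4`), points `(x i, y i) ∈ T` and vectors `(p i, r i)`. If
`V = p i * r j - p j * r i = 0` for some `i ≠ j`: by `Av_sq` ... or directly: `Fv` is homogeneous of
degree `3`; since `|Fv (p i) (r i)| = 1` the vector `(p i, r i)` is primitive (`Fv_smul`: a common
divisor `t` gives `t ^ 3 ∣ 1`), so two parallel primitive vectors are equal up to sign, and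
`Hv_smul` with `t = -1` gives `x i = x j`. (Or: `cross` and `Av_sq` with `V = 0` give
`F G' = F' G`, `Av ^ 2 = 4 x x'`, and `G ^ 2 = G' ^ 2` with `syzygy` gives `x ^ 3 = x' ^ 3`: indeed
`Fv ^ 2 = 1` for both, `Gv' = ± Gv`, so `4 x' ^ 3 + 4 k = 4 x ^ 3 + 4 k`. This is the shortest
way.) So `V ≠ 0`. By `syzygy` `Gv ^ 2 = 4 (x ^ 3 + k) = (2 y) ^ 2`, so `|Gv| = 2 |y|`, and `cross` gives
`2 |V| |3 x x' + 4 k V ^ 2| = |F G' - F' G| ≤ 2 |y| + 2 |y'|`, so `gap_pair` applies (`x ≥ X`,
`17 x' < X ^ 2 ≤ x ^ 2`, `100 |k| ≤ X ^ 3 ≤ x ^ 3`), and `gap_four` gives a contradiction. Finally for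
each `x` there are at most two `y` (`y ^ 2 = x ^ 3 + k`), so `T.card ≤ 2 * 3`
(`Finset.card_le_mul_card_image`).
-/

set_option autoImplicit false

namespace Pool.Agent.Work.MP_f2148a_nt.AV

open Exp

theorem fiber_le (a b c d k X : ℤ) (hD : Dv a b c d = 4 * k) (hX : 0 < X)
    (hkX : 100 * |k| ≤ X ^ 3) (T : Finset (ℤ × ℤ))
    (hT : ∀ t ∈ T, t.2 ^ 2 = t.1 ^ 3 + k ∧ X ≤ t.1 ∧ 17 * t.1 < X ^ 2 ∧
      ∃ p r : ℤ, |Fv a b c d p r| = 1 ∧ Hv a b c d p r = t.1) : T.card ≤ 6 := by
  classical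
  -- at most three values of the first coordinate
  have h3 : (T.image Prod.fst).card ≤ 3 := by
    by_contra hcon
    push Not at hcon
    obtain ⟨S, hS, hS4⟩ := Finset.exists_subset_card_eq (show 4 ≤ (T.image Prod.fst).card from hcon)
    let e := S.equivFinOfCardEq hS4
    set x : Fin 4 → ℤ := fun i => (e.symm i).1 with hxdef
    have hxinj : ∀ i j, i ≠ j → x i ≠ x j := by
      intro i j hij h
      exact hij (e.symm.injective (Subtype.ext h))
    have hxm : ∀ i, ∃ t ∈ T, t.1 = x i := by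
      intro i
      have h1 := hS (e.symm i).2
      rw [Finset.mem_image] at h1
      exact h1
    choose t htT htx using hxm
    have hall : ∀ i, (t i).2 ^ 2 = x i ^ 3 + k ∧ X ≤ x i ∧ 17 * x i < X ^ 2 ∧
        ∃ p r : ℤ, |Fv a b c d p r| = 1 ∧ Hv a b c d p r = x i := by
      intro i
      have := hT (t i) (htT i)
      rw [htx i] at this
      exact this
    choose hy hXx h17 p r hF hH using hall
    have hx0 : ∀ i, 0 < x i := fun i => lt_of_lt_of_le hX (hXx i)
    have hF2 : ∀ i, Fv a b c d (p i) (r i) ^ 2 = 1 := by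
      intro i
      rw [← sq_abs, hF i, one_pow]
    have hG2 : ∀ i, Gv a b c d (p i) (r i) ^ 2 = (2 * (t i).2) ^ 2 := by
      intro i
      rw [syzygy, hH i, hF2 i, hD, mul_pow, hy i]
      ring
    have hGa : ∀ i, |Gv a b c d (p i) (r i)| = 2 * |(t i).2| := by
      intro i
      have h1 := (sq_eq_sq_iff_abs_eq_abs _ _).1 (hG2 i)
      rw [h1, abs_mul, abs_two]
    refine gap_four k p r x hx0 ?_
    intro i j hij
    have hcr := cross a b c d (p i) (r i) (p j) (r j)
    rw [hH i, hH j, hD] at hcr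
    have hV : p i * r j - p j * r i ≠ 0 := by
      intro hV
      rw [hV] at hcr
      have h1 : Fv a b c d (p i) (r i) * Gv a b c d (p j) (r j) =
          Fv a b c d (p j) (r j) * Gv a b c d (p i) (r i) := by
        linarith
      have h2 : Gv a b c d (p j) (r j) ^ 2 = Gv a b c d (p i) (r i) ^ 2 := by
        have h3 := congrArg (fun z => z ^ 2) h1
        simp only [mul_pow, hF2, one_mul] at h3
        exact h3
      rw [hG2, hG2, mul_pow, mul_pow, hy, hy] at h2
      have h4 : x i ^ 3 = x j ^ 3 := by linarith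
      have h5 : x i = x j := (pow_left_inj₀ (hx0 i).le (hx0 j).le (by norm_num)).1 h4
      exact hxinj i j hij h5
    have hXi : X ^ 3 ≤ x i ^ 3 := pow_le_pow_left₀ hX.le (hXx i) 3
    have hXj : X ^ 3 ≤ x j ^ 3 := pow_le_pow_left₀ hX.le (hXx j) 3
    have hXi2 : X ^ 2 ≤ x i ^ 2 := pow_le_pow_left₀ hX.le (hXx i) 2
    have hXj2 : X ^ 2 ≤ x j ^ 2 := pow_le_pow_left₀ hX.le (hXx j) 2
    refine gap_pair k (x i) (t i).2 (x j) (t j).2 (p i * r j - p j * r i) (hx0 i) (hx0 j)
      (hkX.trans hXi) (hkX.trans hXj) (hy i) (hy j) hV ?_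
      (lt_of_lt_of_le (h17 j) hXi2) (lt_of_lt_of_le (h17 i) hXj2)
    have h1 : |2 * ((p i * r j - p j * r i) *
        (3 * x i * x j + 4 * k * (p i * r j - p j * r i) ^ 2))| ≤ 2 * (|(t i).2| + |(t j).2|) := by
      have h2 : 2 * ((p i * r j - p j * r i) *
          (3 * x i * x j + 4 * k * (p i * r j - p j * r i) ^ 2)) =
          Fv a b c d (p i) (r i) * Gv a b c d (p j) (r j) -
          Fv a b c d (p j) (r j) * Gv a b c d (p i) (r i) := by
        rw [hcr]; ring
      rw [h2]
      refine (abs_sub _ _).trans ?_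
      rw [abs_mul, abs_mul, hF i, hF j, hGa i, hGa j]
      linarith
    rw [abs_mul, abs_two] at h1
    have h2 : |(p i * r j - p j * r i) *
        (3 * x i * x j + 4 * k * (p i * r j - p j * r i) ^ 2)| ≤ |(t i).2| + |(t j).2| := by
      linarith
    have h3 := pow_le_pow_left₀ (abs_nonneg _) h2 2
    rw [sq_abs, mul_pow] at h3
    exact h3
  have h2 : T.card ≤ 2 * (T.image Prod.fst).card := by
    refine Finset.card_le_mul_card_image T 2 ?_
    intro x hx
    rw [Finset.mem_image] at hx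
    obtain ⟨t0, ht0, rfl⟩ := hx
    have hsub : T.filter (fun t => t.1 = t0.1) ⊆ {(t0.1, t0.2), (t0.1, -t0.2)} := by
      intro t ht
      rw [Finset.mem_filter] at ht
      have h1 := (hT t ht.1).1
      have h2 := (hT t0 ht0).1
      rw [ht.2, ← h2] at h1
      rw [Finset.mem_insert, Finset.mem_singleton]
      rcases sq_eq_sq_iff_eq_or_eq_neg.1 h1 with h3 | h3
      · left; exact Prod.ext ht.2 h3
      · right; exact Prod.ext ht.2 h3
    exact (Finset.card_le_card hsub).trans (Finset.card_le_two)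
  omega

end Pool.Agent.Work.MP_f2148a_nt.AV
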