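import Pool.Agent.Work.MP_f2148a_nt.AAK

/-!
# The small range, counting points

Proof. As the proof of `almost_all_k` (`AAK.lean`), with `η = 1 / 20`, `ε = 1 / 1000`, but for a set of
points: `box_count (ε / 5)` with the natural number `⌊K⌋₊` in place of `K` (the integer
`|p.2 ^ 2 - p.1 ^ 3|` is at most `⌊K⌋₊`) and `M = K ^ (5 - 1 / 20)` (or any exponent bound as there:
the exponents are at most `1 - 1 / 120 + 1 / 1000`).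
-/

set_option autoImplicit false

namespace Pool.Agent.Work.MP_f2148a_nt.AV

theorem small_points : ∃ A : ℝ, 0 ≤ A ∧ ∀ K : ℝ, 1 ≤ K → ∀ S : Finset (ℤ × ℤ),
    (∀ t ∈ S, t.2 ^ 2 ≠ t.1 ^ 3 ∧ |(t.2 : ℝ) ^ 2 - (t.1 : ℝ) ^ 3| ≤ K ∧
      max |(t.1 : ℝ)| |(t.2 : ℝ)| ≤ K ^ (5 - 1 / 20 : ℝ)) →
    (S.card : ℝ) ≤ A * K ^ (1 - 1 / 1000000 : ℝ) := by
  obtain ⟨A, hA, hbox⟩ := Pool.Agent.Work.MP_f2148a_nt.box_count ((1 / 1000 : ℝ) / 5)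
    (by positivity)
  refine ⟨2 * A, by linarith, fun K hK S hS => ?_⟩
  obtain ⟨η, hη⟩ : ∃ η : ℝ, η = 1 / 20 := ⟨_, rfl⟩
  obtain ⟨ε, hε⟩ : ∃ ε : ℝ, ε = 1 / 1000 := ⟨_, rfl⟩
  rw [← hε] at hbox
  rw [← hη] at hS
  set N := ⌊K⌋₊ with hN
  have hN1 : 1 ≤ N := by
    rw [hN, Nat.one_le_floor_iff]; exact hK
  have hNK : (N : ℝ) ≤ K := Nat.floor_le (by linarith)
  have hM1 : K ≤ K ^ (5 - η) := by
    calc K = K ^ (1 : ℝ) := (Real.rpow_one K).symm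
      _ ≤ K ^ (5 - η) := Real.rpow_le_rpow_of_exponent_le hK (by linarith)
  have hM0 : 0 ≤ K ^ (5 - η) := by linarith
  have hmem : ∀ p ∈ S, p.2 ^ 2 ≠ p.1 ^ 3 ∧ |p.2 ^ 2 - p.1 ^ 3| ≤ (N : ℤ) ∧
      |(p.2 : ℝ)| ≤ K ^ (5 - η) := by
    intro p hp
    obtain ⟨h1, h2, h3⟩ := hS p hp
    refine ⟨h1, ?_, (le_max_right _ _).trans h3⟩
    have h4 : |p.2 ^ 2 - p.1 ^ 3|.toNat ≤ N := by
      apply Nat.le_floor
      have e2 : ((|p.2 ^ 2 - p.1 ^ 3|.toNat : ℕ) : ℤ) = |p.2 ^ 2 - p.1 ^ 3| :=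
        Int.toNat_of_nonneg (abs_nonneg _)
      have e3 : ((|p.2 ^ 2 - p.1 ^ 3|.toNat : ℕ) : ℝ) = |(p.2 : ℝ) ^ 2 - (p.1 : ℝ) ^ 3| := by
        have := congrArg (fun z : ℤ => (z : ℝ)) e2
        push_cast at this
        exact this
      rw [e3]; exact h2
    omega
  refine (hbox N hN1 (K ^ (5 - η)) (hNK.trans hM1) _ hmem).trans ?_
  have hK0 : (0 : ℝ) < K := by linarith
  have b1 : (K ^ (5 - η)) ^ (ε / 5) ≤ K ^ ε := by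
    rw [← Real.rpow_mul hK0.le]
    apply Real.rpow_le_rpow_of_exponent_le hK
    rw [hη, hε]; norm_num
  have b2 : (N : ℝ) ^ (5 / 6 : ℝ) ≤ K ^ (1 - η / 6) := by
    calc (N : ℝ) ^ (5 / 6 : ℝ) ≤ K ^ (5 / 6 : ℝ) := by gcongr
      _ ≤ K ^ (1 - η / 6) := Real.rpow_le_rpow_of_exponent_le hK (by linarith)
  have b3 : (K ^ (5 - η)) ^ (1 / 6 : ℝ) * (N : ℝ) ^ (1 / 6 : ℝ) ≤ K ^ (1 - η / 6) := by
    calc (K ^ (5 - η)) ^ (1 / 6 : ℝ) * (N : ℝ) ^ (1 / 6 : ℝ)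
        ≤ (K ^ (5 - η)) ^ (1 / 6 : ℝ) * K ^ (1 / 6 : ℝ) := by gcongr
      _ = K ^ (1 - η / 6) := by
        rw [← Real.rpow_mul hK0.le, ← Real.rpow_add hK0]
        congr 1
        ring
  calc A * (K ^ (5 - η)) ^ (ε / 5) *
        ((N : ℝ) ^ (5 / 6 : ℝ) + (K ^ (5 - η)) ^ (1 / 6 : ℝ) * (N : ℝ) ^ (1 / 6 : ℝ))
      ≤ A * K ^ ε * (K ^ (1 - η / 6) + K ^ (1 - η / 6)) := by gcongr
    _ = 2 * A * (K ^ (1 - η / 6) * K ^ ε) := by ring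
    _ = 2 * A * K ^ (1 - η / 6 + ε) := by rw [← Real.rpow_add hK0]
    _ ≤ 2 * A * K ^ (1 - 1 / 1000000 : ℝ) := by
      have : K ^ (1 - η / 6 + ε) ≤ K ^ (1 - 1 / 1000000 : ℝ) :=
        Real.rpow_le_rpow_of_exponent_le hK (by rw [hη, hε]; norm_num)
      have hA2 : 0 ≤ 2 * A := by linarith
      exact mul_le_mul_of_nonneg_left this hA2

end Pool.Agent.Work.MP_f2148a_nt.AV
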