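import Pool.Agent.Work.MP_f2148a_nt.AV.Count
import Pool.Agent.Work.MP_f2148a_nt.AV.Small
import Pool.Agent.Work.MP_f2148a_nt.AV.QuadA
import Pool.Agent.Work.MP_f2148a_nt.AV.QuadB
import Pool.Agent.Work.MP_f2148a_nt.HE.FinalE
import Pool.Agent.Work.MP_f2148a_nt.Exp3.Assembly3

/-!
# The number of integer points with `0 < |y² - x³| ≤ K`

Proof. For `K` large put `κ = K ^ (1 / 1000000)`, `L = K ^ (1 / 4000000)`; `eff_bound` gives
`max (|x|, |y|) ≤ exp (exp L)` for all points. The points of size at most `K ^ (5 - 1 / 20)`: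
`small_points`. The points with `K ^ (5 - 1 / 20) < size ≤ exp κ`: `exists_quadZ` attaches a form to
each, the forms are counted by `bal_final` and `unb_final` (as in `Exp.final`), the points by
`count_points`. The points with `exp κ < size ≤ exp (exp L)`: `quad3Z`, `range_bound3`, `unb_final2`
(as in `Exp.final3`), `count_points`. Small `K`: monotonicity in `K`.
-/

set_option autoImplicit false

namespace Pool.Agent.Work.MP_f2148a_nt.AV

open Exp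

/-- The points of one range. -/
private theorem fa_range (K L B : ℝ) (hL : 1 ≤ L) (hK : 102 ≤ K) (T : Finset (ℤ × ℤ))
    (P : ℤ × ℤ × ℤ × ℤ → Prop)
    (hT : ∀ t ∈ T, t.2 ^ 2 ≠ t.1 ^ 3 ∧ |(t.2 : ℝ) ^ 2 - (t.1 : ℝ) ^ 3| ≤ K ∧
      K ^ (5 - 1 / 20 : ℝ) < max |(t.1 : ℝ)| |(t.2 : ℝ)| ∧
      max |(t.1 : ℝ)| |(t.2 : ℝ)| ≤ Real.exp (Real.exp L) ∧
      ∃ q : ℤ × ℤ × ℤ × ℤ, Dv q.1 q.2.1 q.2.2.1 q.2.2.2 = 4 * (t.2 ^ 2 - t.1 ^ 3) ∧
        (∃ p r : ℤ, |Fv q.1 q.2.1 q.2.2.1 q.2.2.2 p r| = 1 ∧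
          Hv q.1 q.2.1 q.2.2.1 q.2.2.2 p r = t.1) ∧ P q)
    (hB : ∀ S : Finset (ℤ × ℤ × ℤ × ℤ), (∀ q ∈ S, P q) → (S.card : ℝ) ≤ B) :
    (T.card : ℝ) ≤ 6 * (2 * L + 1) * B := by
  classical
  have hex : ∀ t : ℤ × ℤ, ∃ q : ℤ × ℤ × ℤ × ℤ, t ∈ T →
      Dv q.1 q.2.1 q.2.2.1 q.2.2.2 = 4 * (t.2 ^ 2 - t.1 ^ 3) ∧
        (∃ p r : ℤ, |Fv q.1 q.2.1 q.2.2.1 q.2.2.2 p r| = 1 ∧
          Hv q.1 q.2.1 q.2.2.1 q.2.2.2 p r = t.1) ∧ P q := by
    intro t
    by_cases ht : t ∈ T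
    · obtain ⟨-, -, -, -, q, hq⟩ := hT t ht
      exact ⟨q, fun _ => hq⟩
    · exact ⟨(0, 0, 0, 0), fun h => absurd h ht⟩
  choose f hf using hex
  refine count_points K L B hL T f ?_ ?_
  · intro t ht
    obtain ⟨h1, h2, h3, h4, -⟩ := hT t ht
    obtain ⟨g1, g2, -⟩ := hf t ht
    have hKone : (1 : ℝ) ≤ K := by linarith
    have hL1 : K ≤ K ^ (5 - 1 / 20 : ℝ) := by
      calc K = K ^ (1 : ℝ) := (Real.rpow_one K).symm
        _ ≤ K ^ (5 - 1 / 20 : ℝ) := Real.rpow_le_rpow_of_exponent_le hKone (by norm_num)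
    have hk : |((t.2 ^ 2 - t.1 ^ 3 : ℤ) : ℝ)| ≤ K := by
      push_cast
      exact h2
    obtain ⟨hx0, hx3⟩ := size_facts K (K ^ (5 - 1 / 20 : ℝ)) t.1 t.2 (t.2 ^ 2 - t.1 ^ 3) hKone
      hL1 (by linarith) hk (by ring) h3
    have hKx : K ≤ (t.1 : ℝ) := by
      by_contra hlt
      push Not at hlt
      have e1 : (t.1 : ℝ) ^ 3 < K ^ 3 := pow_lt_pow_left₀ hlt hx0.le (by norm_num)
      have e2 : K ^ 4 ≤ (K ^ (5 - 1 / 20 : ℝ)) ^ 2 := by
        rw [← Real.rpow_natCast, ← Real.rpow_natCast, ← Real.rpow_mul (by linarith)]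
        exact Real.rpow_le_rpow_of_exponent_le hKone (by norm_num)
      have e3 : 2 * K ^ 3 ≤ K ^ 4 := by
        have : 0 ≤ K ^ 3 := by positivity
        nlinarith
      linarith
    refine ⟨h1, h2, hKx, ?_, ?_, g1, g2⟩
    · have : (102 : ℝ) ≤ (t.1 : ℝ) := hK.trans hKx
      exact_mod_cast this
    · exact (le_abs_self _).trans ((le_max_left _ _).trans h4)
  · refine hB _ ?_
    intro q hq
    obtain ⟨t, ht, rfl⟩ := Finset.mem_image.1 hq
    exact (hf t ht).2.2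

private theorem fa_split (S : Finset (ℤ × ℤ × ℤ × ℤ)) (P Q : ℤ × ℤ × ℤ × ℤ → Prop) (B1 B2 : ℝ)
    (hS : ∀ q ∈ S, P q ∨ Q q)
    (h1 : ∀ S : Finset (ℤ × ℤ × ℤ × ℤ), (∀ q ∈ S, P q) → (S.card : ℝ) ≤ B1)
    (h2 : ∀ S : Finset (ℤ × ℤ × ℤ × ℤ), (∀ q ∈ S, Q q) → (S.card : ℝ) ≤ B2) :
    (S.card : ℝ) ≤ B1 + B2 := by
  classical
  rw [← Finset.card_filter_add_card_filter_not P (s := S)]
  push_cast
  refine add_le_add (h1 _ fun q hq => (Finset.mem_filter.1 hq).2) (h2 _ fun q hq => ?_)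
  obtain ⟨hq1, hq2⟩ := Finset.mem_filter.1 hq
  exact (hS q hq1).resolve_left hq2

theorem final_AV : ∃ A : ℝ, ∀ K : ℝ, 1 ≤ K → ∀ S : Finset (ℤ × ℤ),
    (∀ t ∈ S, t.2 ^ 2 ≠ t.1 ^ 3 ∧ |(t.2 : ℝ) ^ 2 - (t.1 : ℝ) ^ 3| ≤ K) →
    (S.card : ℝ) ≤ A * K ^ (1 - 1 / 2000000 : ℝ) := by
  classical
  obtain ⟨c1, hc1, hb⟩ := bal_final
  obtain ⟨c2, hc2, hu⟩ := unb_final
  obtain ⟨c3, hc3, hu2⟩ := unb_final2 (1 / 10000) (by positivity) (by norm_num)
  obtain ⟨A1, hA1, hsm⟩ := small_points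
  obtain ⟨K1, hK1, hqz⟩ := exists_quadZ
  obtain ⟨C, hC, hbd⟩ := HallEff.eff_bound
  obtain ⟨c4, hc4⟩ : ∃ c4 : ℝ, c4 = 11 * (1000000 * Real.exp 16) := ⟨_, rfl⟩
  have hc4p : 0 < c4 := by
    rw [hc4]
    positivity
  have hev : ∀ᶠ K : ℝ in Filter.atTop, K1 ≤ K ∧ 102 ≤ K ∧ 10000 ≤ Real.log K ∧
      Real.log K ≤ K ^ (1 / 4000000 : ℝ) ∧ 800000 * Real.log K ≤ K ^ (1 / 1000000 : ℝ) ∧
      (4 * C + 1) * Real.log K ≤ K ^ (1 / 8000000 : ℝ) := by
    filter_upwards [Filter.eventually_ge_atTop K1, Filter.eventually_ge_atTop (102 : ℝ),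
      Real.tendsto_log_atTop.eventually (Filter.eventually_ge_atTop (10000 : ℝ)),
      ev_log_rpow 1 (1 / 4000000) (by norm_num) (by norm_num),
      ev_log_rpow 800000 (1 / 1000000) (by norm_num) (by norm_num),
      ev_log_rpow (4 * C + 1) (1 / 8000000) (by linarith) (by norm_num)] with K h1 h2 h3 h4 h5 h6
    refine ⟨h1, h2, h3, ?_, h5, h6⟩
    rwa [one_mul] at h4
  obtain ⟨K0, hK0⟩ := Filter.eventually_atTop.1 hev
  -- the bound for large `K`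
  have key : ∀ K : ℝ, max K0 1 ≤ K → ∀ S : Finset (ℤ × ℤ),
      (∀ t ∈ S, t.2 ^ 2 ≠ t.1 ^ 3 ∧ |(t.2 : ℝ) ^ 2 - (t.1 : ℝ) ^ 3| ≤ K) →
      (S.card : ℝ) ≤ (A1 + 18 * (c1 + c2) + 18 * (c4 + c3)) * K ^ (1 - 1 / 2000000 : ℝ) := by
    intro K hK S hS
    obtain ⟨hKK1, hK102, hl0, hlL, hlκ, hlC⟩ := hK0 K ((le_max_left _ _).trans hK)
    have hKone : (1 : ℝ) ≤ K := by linarith
    have hKpos : 0 < K := by linarith
    obtain ⟨L, hL⟩ : ∃ L : ℝ, L = K ^ (1 / 4000000 : ℝ) := ⟨_, rfl⟩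
    obtain ⟨κ, hκ⟩ : ∃ κ : ℝ, κ = K ^ (1 / 1000000 : ℝ) := ⟨_, rfl⟩
    rw [← hL] at hlL
    rw [← hκ] at hlκ
    have hL1 : 1 ≤ L := by linarith
    have hL0 : 0 < L := by linarith
    have hκexp : κ ≤ Real.exp L := by
      have h1 : κ = L ^ 4 := by
        rw [hκ, hL, ← Real.rpow_natCast, ← Real.rpow_mul hKpos.le]
        norm_num
      have h2 : L ^ 4 / ((4 : ℕ).factorial : ℝ) ≤ Real.exp L :=
        Real.pow_div_factorial_le_exp L hL0.le 4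
      have h3 : L ^ 5 / ((5 : ℕ).factorial : ℝ) ≤ Real.exp L :=
        Real.pow_div_factorial_le_exp L hL0.le 5
      have h4 : ((5 : ℕ).factorial : ℝ) = 120 := by norm_num [Nat.factorial]
      rw [h4] at h3
      rw [h1]
      refine le_trans ?_ h3
      rw [le_div_iff₀ (by norm_num)]
      have h5 : (120 : ℝ) ≤ L := by linarith
      calc L ^ 4 * 120 ≤ L ^ 4 * L := mul_le_mul_of_nonneg_left h5 (by positivity)
        _ = L ^ 5 := by ring
    have hpow : ∀ e : ℝ, e ≤ 1 - 1 / 2000000 → K ^ e ≤ K ^ (1 - 1 / 2000000 : ℝ) := fun e he =>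
      Real.rpow_le_rpow_of_exponent_le hKone he
    -- all points are at most `exp (exp L)`
    have hall : ∀ t ∈ S, max |(t.1 : ℝ)| |(t.2 : ℝ)| ≤ Real.exp (Real.exp L) := by
      intro t ht
      obtain ⟨h1, h2⟩ := hS t ht
      have hk0 : t.2 ^ 2 - t.1 ^ 3 ≠ 0 := sub_ne_zero.2 h1
      refine (hbd (t.2 ^ 2 - t.1 ^ 3) t.1 t.2 hk0 (by ring)).trans ?_
      refine Real.exp_le_exp.2 (Real.exp_le_exp.2 ?_)
      have hk1 : (1 : ℝ) ≤ |((t.2 ^ 2 - t.1 ^ 3 : ℤ) : ℝ)| := by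
        have h1 : 1 ≤ |t.2 ^ 2 - t.1 ^ 3| := Int.one_le_abs hk0
        exact_mod_cast h1
      have hk2 : |((t.2 ^ 2 - t.1 ^ 3 : ℤ) : ℝ)| ≤ K := by
        push_cast
        exact h2
      obtain ⟨s, hs⟩ : ∃ s : ℝ, s = K ^ (1 / 8000000 : ℝ) := ⟨_, rfl⟩
      rw [← hs] at hlC
      have hLs : L = s ^ 2 := by
        rw [hL, hs, ← Real.rpow_natCast, ← Real.rpow_mul hKpos.le]
        norm_num
      have h3 := Real.log_nonneg hk1
      have h4 := Real.log_le_log (by linarith) hk2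
      have h5 : (1 + Real.log |((t.2 ^ 2 - t.1 ^ 3 : ℤ) : ℝ)|) ^ 2 ≤ (2 * Real.log K) ^ 2 :=
        pow_le_pow_left₀ (by linarith) (by linarith) 2
      have h6 : C * (2 * Real.log K) ^ 2 ≤ s ^ 2 := by
        have h7 : C * (2 * Real.log K) ^ 2 ≤ ((4 * C + 1) * Real.log K) ^ 2 := by
          have h8 : ((4 * C + 1) * Real.log K) ^ 2 = (16 * C ^ 2 + 8 * C + 1) * Real.log K ^ 2 := by
            ring
          have h9 : C * (2 * Real.log K) ^ 2 = 4 * C * Real.log K ^ 2 := by ring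
          rw [h8, h9]
          refine mul_le_mul_of_nonneg_right ?_ (sq_nonneg _)
          nlinarith [sq_nonneg C]
        refine h7.trans (pow_le_pow_left₀ ?_ hlC 2)
        have : 0 ≤ 4 * C + 1 := by linarith
        have : 0 ≤ Real.log K := by linarith
        positivity
      rw [hLs]
      exact (mul_le_mul_of_nonneg_left h5 hC).trans h6
    -- the three parts
    obtain ⟨S1, hS1⟩ : ∃ S1, S1 = S.filter
      (fun t => max |(t.1 : ℝ)| |(t.2 : ℝ)| ≤ K ^ (5 - 1 / 20 : ℝ)) := ⟨_, rfl⟩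
    obtain ⟨S2, hS2⟩ : ∃ S2, S2 = S.filter
      (fun t => K ^ (5 - 1 / 20 : ℝ) < max |(t.1 : ℝ)| |(t.2 : ℝ)| ∧
        max |(t.1 : ℝ)| |(t.2 : ℝ)| ≤ Real.exp κ) := ⟨_, rfl⟩
    obtain ⟨S3, hS3⟩ : ∃ S3, S3 = S.filter
      (fun t => K ^ (5 - 1 / 20 : ℝ) < max |(t.1 : ℝ)| |(t.2 : ℝ)| ∧
        Real.exp κ < max |(t.1 : ℝ)| |(t.2 : ℝ)|) := ⟨_, rfl⟩
    have hcover : S ⊆ S1 ∪ (S2 ∪ S3) := by
      intro t ht
      rw [Finset.mem_union, Finset.mem_union, hS1, hS2, hS3]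
      simp only [Finset.mem_filter]
      rcases le_or_gt (max |(t.1 : ℝ)| |(t.2 : ℝ)|) (K ^ (5 - 1 / 20 : ℝ)) with h | h
      · exact Or.inl ⟨ht, h⟩
      · rcases le_or_gt (max |(t.1 : ℝ)| |(t.2 : ℝ)|) (Real.exp κ) with h' | h'
        · exact Or.inr (Or.inl ⟨ht, h, h'⟩)
        · exact Or.inr (Or.inr ⟨ht, h, h'⟩)
    have hcard : (S.card : ℝ) ≤ S1.card + (S2.card + S3.card) := by
      have h1 := Finset.card_le_card hcover
      have h2 := Finset.card_union_le S1 (S2 ∪ S3)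
      have h3 := Finset.card_union_le S2 S3
      exact_mod_cast h1.trans (h2.trans (by omega))
    have hb1 : (S1.card : ℝ) ≤ A1 * K ^ (1 - 1 / 2000000 : ℝ) := by
      refine (hsm K hKone S1 ?_).trans (mul_le_mul_of_nonneg_left (hpow _ (by norm_num)) hA1)
      intro t ht
      rw [hS1, Finset.mem_filter] at ht
      exact ⟨(hS t ht.1).1, (hS t ht.1).2, ht.2⟩
    have h18 : ∀ c : ℝ, 0 ≤ c → 6 * (2 * L + 1) * (c * K ^ (1 - 1 / 1000000 : ℝ)) ≤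
        18 * c * K ^ (1 - 1 / 2000000 : ℝ) := by
      intro c hc
      have e1 : L * K ^ (1 - 1 / 1000000 : ℝ) ≤ K ^ (1 - 1 / 2000000 : ℝ) := by
        rw [hL, ← Real.rpow_add hKpos]
        exact hpow _ (by norm_num)
      have e2 : 0 < K ^ (1 - 1 / 1000000 : ℝ) := Real.rpow_pos_of_pos hKpos _
      calc 6 * (2 * L + 1) * (c * K ^ (1 - 1 / 1000000 : ℝ))
          ≤ 18 * L * (c * K ^ (1 - 1 / 1000000 : ℝ)) :=
            mul_le_mul_of_nonneg_right (by linarith) (by positivity)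
        _ = 18 * c * (L * K ^ (1 - 1 / 1000000 : ℝ)) := by ring
        _ ≤ 18 * c * K ^ (1 - 1 / 2000000 : ℝ) :=
            mul_le_mul_of_nonneg_left e1 (by positivity)
    have hb2 : (S2.card : ℝ) ≤ 18 * (c1 + c2) * K ^ (1 - 1 / 2000000 : ℝ) := by
      refine (fa_range K L ((c1 + c2) * K ^ (1 - 1 / 1000000 : ℝ)) hL1 hK102 S2
        (fun q => Bal (scale K ^ 20) (scale K) q ∨ Unb (18720 * K / scale K) q) ?_ ?_).trans
        (h18 _ (by positivity))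
      · intro t ht
        rw [hS2, Finset.mem_filter] at ht
        obtain ⟨ht, h3, h4⟩ := ht
        obtain ⟨h1, h2⟩ := hS t ht
        refine ⟨h1, h2, h3, hall t ht, ?_⟩
        have hk2 : |((t.2 ^ 2 - t.1 ^ 3 : ℤ) : ℝ)| ≤ K := by
          push_cast
          exact h2
        exact hqz K hKK1 (t.2 ^ 2 - t.1 ^ 3) t.1 t.2 (sub_ne_zero.2 h1) hk2 (by ring) h3
          (by rw [← hκ]; exact h4)
      · intro S' hS'
        refine (fa_split S' _ _ _ _ hS' (hb K hKone) (hu K hKone)).trans (le_of_eq ?_)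
        ring
    have hb3 : (S3.card : ℝ) ≤ 18 * (c4 + c3) * K ^ (1 - 1 / 2000000 : ℝ) := by
      refine (fa_range K L ((c4 + c3) * K ^ (1 - 1 / 1000000 : ℝ)) hL1 hK102 S3
        (fun q => Bal4 (18 * K ^ (1 / 4 + 3 * (1 / 10000 : ℝ))) (κ / 8) (2 * Real.exp L) q ∨
          Unb (18720 * K ^ (1 - 1 / 10000 : ℝ)) q) ?_ ?_).trans
        (h18 _ (by positivity))
      · intro t ht
        rw [hS3, Finset.mem_filter] at ht
        obtain ⟨ht, h3, h4⟩ := ht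
        obtain ⟨h1, h2⟩ := hS t ht
        refine ⟨h1, h2, h3, hall t ht, ?_⟩
        have hk2 : |((t.2 ^ 2 - t.1 ^ 3 : ℤ) : ℝ)| ≤ K := by
          push_cast
          exact h2
        exact quad3Z (1 / 10000) K κ (Real.exp L) (by norm_num) le_rfl hKone (by linarith)
          (by linarith) (by linarith) hκexp (t.2 ^ 2 - t.1 ^ 3) t.1 t.2 (sub_ne_zero.2 h1) hk2
          (by ring) h4 (hall t ht)
      · intro S' hS'
        refine (fa_split S' _ _ (c4 * K ^ (1 - 1 / 1000000 : ℝ))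
          (c3 * K ^ (1 - 1 / 1000000 : ℝ)) hS' ?_ ?_).trans (le_of_eq (by ring))
        · intro S'' hS''
          refine (range_bound3 (1 / 10000) K L (κ / 8) (by norm_num) le_rfl hKone (by linarith) hlL
            (by linarith) S'' hS'').trans ?_
          have e1 : L * (L * K ^ (1 - 1 / 204 + 12 * (1 / 10000) : ℝ)) ≤
              K ^ (1 - 1 / 1000000 : ℝ) := by
            rw [hL, ← Real.rpow_add hKpos, ← Real.rpow_add hKpos]
            exact Real.rpow_le_rpow_of_exponent_le hKone (by norm_num)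
          calc 11 * L * (1000000 * Real.exp 16 * L * K ^ (1 - 1 / 204 + 12 * (1 / 10000) : ℝ))
              = c4 * (L * (L * K ^ (1 - 1 / 204 + 12 * (1 / 10000) : ℝ))) := by
                rw [hc4]
                ring
            _ ≤ c4 * K ^ (1 - 1 / 1000000 : ℝ) := mul_le_mul_of_nonneg_left e1 hc4p.le
        · intro S'' hS''
          refine (hu2 K hKone S'' hS'').trans (mul_le_mul_of_nonneg_left ?_ hc3.le)
          exact Real.rpow_le_rpow_of_exponent_le hKone (by norm_num)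
    calc (S.card : ℝ) ≤ S1.card + (S2.card + S3.card) := hcard
      _ ≤ A1 * K ^ (1 - 1 / 2000000 : ℝ) + (18 * (c1 + c2) * K ^ (1 - 1 / 2000000 : ℝ) +
          18 * (c4 + c3) * K ^ (1 - 1 / 2000000 : ℝ)) := add_le_add hb1 (add_le_add hb2 hb3)
      _ = _ := by ring
  obtain ⟨A, hA⟩ : ∃ A : ℝ, A = A1 + 18 * (c1 + c2) + 18 * (c4 + c3) := ⟨_, rfl⟩
  have hA0 : 0 ≤ A := by
    rw [hA]
    positivity
  rw [← hA] at key
  obtain ⟨K2, hK2⟩ : ∃ K2 : ℝ, K2 = max K0 1 := ⟨_, rfl⟩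
  have hK21 : 1 ≤ K2 := by
    rw [hK2]
    exact le_max_right _ _
  refine ⟨A * K2, fun K hK S hS => ?_⟩
  have hp1 : 1 ≤ K ^ (1 - 1 / 2000000 : ℝ) := Real.one_le_rpow hK (by norm_num)
  rcases le_total K2 K with h | h
  · refine (key K (by rw [← hK2]; exact h) S hS).trans ?_
    refine mul_le_mul_of_nonneg_right ?_ (by linarith)
    nlinarith
  · have h1 := key K2 (by rw [← hK2]) S fun t ht => ⟨(hS t ht).1, (hS t ht).2.trans h⟩
    have h2 : K2 ^ (1 - 1 / 2000000 : ℝ) ≤ K2 := by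
      calc K2 ^ (1 - 1 / 2000000 : ℝ) ≤ K2 ^ (1 : ℝ) :=
            Real.rpow_le_rpow_of_exponent_le hK21 (by norm_num)
        _ = K2 := Real.rpow_one K2
    calc (S.card : ℝ) ≤ A * K2 ^ (1 - 1 / 2000000 : ℝ) := h1
      _ ≤ A * K2 := mul_le_mul_of_nonneg_left h2 hA0
      _ ≤ A * K2 * K ^ (1 - 1 / 2000000 : ℝ) := le_mul_of_one_le_right (by positivity) hp1

end Pool.Agent.Work.MP_f2148a_nt.AV
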