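import Pool.Agent.Work.MP_f2148a_nt.AV.Defs

/-!
# The gap principle

`gap_pair`. Proof: suppose `2 |3 x x' + 4 k V ^ 2| ≥ x x'`. As `V ^ 2 ≥ 1`, `hcr` gives
`(|y| + |y'|) ^ 2 ≥ (x x') ^ 2 / 4`. But `(|y| + |y'|) ^ 2 ≤ 2 (y ^ 2 + y' ^ 2) ≤ 2.02 (x ^ 3 + x' ^ 3)`
(`|k| ≤ x ^ 3 / 100`). If `x ≤ x'` this is `≤ 4.04 x' ^ 3`, so `x ^ 2 ≤ 16.16 x'`, against
`17 x' < x ^ 2`; symmetric if `x' ≤ x`. So `2 |3 x x' + 4 k V ^ 2| < x x'`, i.e.
`-x x' < 6 x x' + 8 k V ^ 2 < x x'`.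

`gap_four`. Proof: with `V i j = p i * r j - p j * r i` one has
`V 0 1 * V 2 3 - V 0 2 * V 1 3 + V 0 3 * V 1 2 = 0` (`ring`). Let `e = -8 k` (positive by the
hypothesis), `P = x 0 * x 1 * x 2 * x 3 > 0`. The squares of `e V01 V23`, `e V02 V13`, `e V03 V12`
are in `(25 P, 49 P)`. One of the three absolute values is the sum of the other two, so its square
is `> 25 P + 25 P + 2 * 25 P = 100 P`, a contradiction.
-/

set_option autoImplicit false

namespace Pool.Agent.Work.MP_f2148a_nt.AV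

open Exp

theorem gap_pair (k x y x' y' V : ℤ) (hx : 0 < x) (hx' : 0 < x') (hk : 100 * |k| ≤ x ^ 3)
    (hk' : 100 * |k| ≤ x' ^ 3) (h : y ^ 2 = x ^ 3 + k) (h' : y' ^ 2 = x' ^ 3 + k) (hV : V ≠ 0)
    (hcr : V ^ 2 * (3 * x * x' + 4 * k * V ^ 2) ^ 2 ≤ (|y| + |y'|) ^ 2) (hw : 17 * x' < x ^ 2)
    (hw' : 17 * x < x' ^ 2) : 5 * (x * x') < -8 * k * V ^ 2 ∧ -8 * k * V ^ 2 < 7 * (x * x') := by
  have hP : 0 < x * x' := mul_pos hx hx'
  have hV1 : 1 ≤ V ^ 2 := by
    have : 0 < V ^ 2 := by positivity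
    omega
  have hmain : 2 * |3 * (x * x') + 4 * k * V ^ 2| < x * x' := by
    by_contra hcon
    push Not at hcon
    have h1 : (x * x') ^ 2 ≤ 4 * (3 * (x * x') + 4 * k * V ^ 2) ^ 2 := by
      have h2 : (x * x') ^ 2 ≤ (2 * |3 * (x * x') + 4 * k * V ^ 2|) ^ 2 := by
        gcongr
      have e := sq_abs (3 * (x * x') + 4 * k * V ^ 2)
      calc (x * x') ^ 2 ≤ (2 * |3 * (x * x') + 4 * k * V ^ 2|) ^ 2 := h2
        _ = 4 * |3 * (x * x') + 4 * k * V ^ 2| ^ 2 := by ring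
        _ = _ := by rw [e]
    have h2 : (3 * (x * x') + 4 * k * V ^ 2) ^ 2 ≤
        V ^ 2 * (3 * x * x' + 4 * k * V ^ 2) ^ 2 := by
      have e : (3 * x * x' + 4 * k * V ^ 2) = 3 * (x * x') + 4 * k * V ^ 2 := by ring
      rw [e]
      have := sq_nonneg (3 * (x * x') + 4 * k * V ^ 2)
      nlinarith
    have h3 : (|y| + |y'|) ^ 2 ≤ 2 * (y ^ 2 + y' ^ 2) := by
      have e1 := sq_abs y
      have e2 := sq_abs y'
      nlinarith [sq_nonneg (|y| - |y'|)]
    have h4 : k ≤ |k| := le_abs_self k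
    have h5 : 100 * (x * x') ^ 2 ≤ 808 * (x ^ 3 + x' ^ 3) := by
      have := h1.trans (by linarith : 4 * (3 * (x * x') + 4 * k * V ^ 2) ^ 2 ≤
        4 * (2 * (y ^ 2 + y' ^ 2)))
      rw [h, h'] at this
      linarith
    have key : ∀ u v : ℤ, 0 < u → 0 < v → u ≤ v → 17 * v < u ^ 2 →
        100 * (u * v) ^ 2 ≤ 808 * (u ^ 3 + v ^ 3) → False := by
      intro u v hu hv huv hw h5
      have h6 : u ^ 3 ≤ v ^ 3 := by gcongr
      have h7 : v ^ 2 * (100 * u ^ 2) ≤ v ^ 2 * (1616 * v) := by nlinarith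
      have h8 := le_of_mul_le_mul_left h7 (by positivity)
      linarith
    rcases le_total x x' with hle | hle
    · exact key x x' hx hx' hle hw h5
    · refine key x' x hx' hx hle hw' ?_
      rw [mul_comm x' x, add_comm]
      exact h5
  obtain ⟨h1, h2⟩ := abs_lt.1 (show |2 * (3 * (x * x') + 4 * k * V ^ 2)| < x * x' by
    rw [abs_mul]; simpa using hmain)
  constructor <;> linarith

private theorem gap_key (A B C P : ℤ) (hP : 0 < P) (h : A = B + C) (hA : A ^ 2 < 49 * P)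
    (hB : 25 * P < B ^ 2) (hC : 25 * P < C ^ 2) (hBC : 0 ≤ B * C) : False := by
  have h1 : (25 * P) ^ 2 < (B * C) ^ 2 := by
    rw [mul_pow B C, sq (25 * P)]
    exact mul_lt_mul'' hB hC (by positivity) (by positivity)
  have h2 : 25 * P < B * C := lt_of_pow_lt_pow_left₀ 2 hBC h1
  rw [h] at hA
  nlinarith

theorem gap_four (k : ℤ) (p r x : Fin 4 → ℤ) (hx : ∀ i, 0 < x i)
    (h : ∀ i j, i ≠ j → 5 * (x i * x j) < -8 * k * (p i * r j - p j * r i) ^ 2 ∧
      -8 * k * (p i * r j - p j * r i) ^ 2 < 7 * (x i * x j)) : False := by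
  have hP : 0 < x 0 * x 1 * x 2 * x 3 := by
    have := hx 0
    have := hx 1
    have := hx 2
    have := hx 3
    positivity
  have hsq : ∀ i j l m : Fin 4, i ≠ j → l ≠ m → x i * x j * x l * x m = x 0 * x 1 * x 2 * x 3 →
      25 * (x 0 * x 1 * x 2 * x 3) <
        (-8 * k * ((p i * r j - p j * r i) * (p l * r m - p m * r l))) ^ 2 ∧
      (-8 * k * ((p i * r j - p j * r i) * (p l * r m - p m * r l))) ^ 2 <
        49 * (x 0 * x 1 * x 2 * x 3) := by
    intro i j l m hij hlm hxx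
    obtain ⟨a1, a2⟩ := h i j hij
    obtain ⟨b1, b2⟩ := h l m hlm
    have p1 : 0 < x i * x j := mul_pos (hx i) (hx j)
    have p2 : 0 < x l * x m := mul_pos (hx l) (hx m)
    have e : (-8 * k * ((p i * r j - p j * r i) * (p l * r m - p m * r l))) ^ 2 =
        (-8 * k * (p i * r j - p j * r i) ^ 2) * (-8 * k * (p l * r m - p m * r l) ^ 2) := by
      ring
    rw [e, ← hxx]
    constructor
    · calc 25 * (x i * x j * x l * x m) = (5 * (x i * x j)) * (5 * (x l * x m)) := by ring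
        _ < _ := mul_lt_mul'' a1 b1 (by positivity) (by positivity)
    · calc (-8 * k * (p i * r j - p j * r i) ^ 2) * (-8 * k * (p l * r m - p m * r l) ^ 2)
          < (7 * (x i * x j)) * (7 * (x l * x m)) :=
            mul_lt_mul'' a2 b2 (by linarith) (by linarith)
        _ = _ := by ring
  obtain ⟨A1, A2⟩ := hsq 0 1 2 3 (by decide) (by decide) rfl
  obtain ⟨B1, B2⟩ := hsq 0 2 1 3 (by decide) (by decide) (by ring)
  obtain ⟨C1, C2⟩ := hsq 0 3 1 2 (by decide) (by decide) (by ring)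
  set P := x 0 * x 1 * x 2 * x 3 with hPd
  set A := -8 * k * ((p 0 * r 1 - p 1 * r 0) * (p 2 * r 3 - p 3 * r 2)) with hA
  set B := -8 * k * ((p 0 * r 2 - p 2 * r 0) * (p 1 * r 3 - p 3 * r 1)) with hB
  set C := -8 * k * ((p 0 * r 3 - p 3 * r 0) * (p 1 * r 2 - p 2 * r 1)) with hC
  have hrel : B = A + C := by rw [hA, hB, hC]; ring
  rcases le_or_gt 0 (A * C) with h1 | h1
  · exact gap_key B A C P hP hrel B2 A1 C1 h1
  rcases le_or_gt 0 (B * -C) with h2 | h2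
  · exact gap_key A B (-C) P hP (by linarith) A2 B1 (by rw [neg_sq]; exact C1) h2
  refine gap_key C B (-A) P hP (by linarith) C2 B1 (by rw [neg_sq]; exact A1) ?_
  by_contra h3
  push Not at h3
  have h4 : 0 < A * B := by linarith
  have h5 : 0 < B * C := by linarith
  have h6 : 0 < (A * B) * (B * C) := mul_pos h4 h5
  have h7 : (A * B) * (B * C) = B ^ 2 * (A * C) := by ring
  rw [h7] at h6
  have h8 : B ^ 2 * (A * C) ≤ 0 := mul_nonpos_of_nonneg_of_nonpos (by positivity) h1.le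
  linarith

end Pool.Agent.Work.MP_f2148a_nt.AV
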