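import Pool.Agent.Work.MP_f2148a_nt.AV.Defs
import Pool.Agent.Work.MP_f2148a_nt.Exp.Geom

/-!
# The reduced form of a point, with the vector that represents `±1`

This is `geom` of `Exp/Geom.lean` with more in the conclusion: copy that proof and adapt the
packaging. In every case the form is `(cA x y a q, cB x y a q b s, cC x y a q b s, cD x y b s)` with
`a * s - q * b = ±1`, the vector is `(-s, q)` (in the balanced case as in `geom`, in the unbalanced
case too), `Fv_c` gives `Fv = -(a s - q b) ^ 3 = ∓1`, `Hv_c` gives `Hv = x (a s - q b) ^ 4 = x`.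
-/

/-!
# The reduced form of a point, with the vector that represents `±1`

This is `geom` of `Exp/Geom.lean` with more in the conclusion: copy that proof and adapt the
packaging. In every case the form is `(cA x y a q, cB x y a q b s, cC x y a q b s, cD x y b s)` with
`a * s - q * b = ±1`, the vector is `(-s, q)` (in the balanced case as in `geom`, in the unbalanced
case too), `Fv_c` gives `Fv = -(a s - q b) ^ 3 = ∓1`, `Hv_c` gives `Hv = x (a s - q b) ^ 4 = x`.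
-/

set_option autoImplicit false

namespace Pool.Agent.Work.MP_f2148a_nt.AV

open Exp

theorem geomZ (x y : ℤ) (H S : ℝ) (hH : 1 ≤ H) (hS : 2 ≤ S) (hx : 0 < x) (hy : 0 < y)
    (hk0 : y ^ 2 ≠ x ^ 3) (hk : |(y : ℝ) ^ 2 - (x : ℝ) ^ 3| ≤ H ^ 4)
    (hxH : 4 * H ^ 4 ≤ (x : ℝ)) (hN : 2 * S * H ≤ Real.sqrt x) :
    ∃ a b c d p r : ℤ, Dv a b c d = 4 * (y ^ 2 - x ^ 3) ∧ a ≠ 0 ∧ |Fv a b c d p r| = 1 ∧
      Hv a b c d p r = x ∧
      ((|(a : ℝ)| ≤ 18 * H * S ^ 3 ∧ |(b : ℝ)| ≤ 18 * H * S ^ 3 ∧ |(c : ℝ)| ≤ 18 * H * S ^ 3 ∧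
        |(d : ℝ)| ≤ 18 * H * S ^ 3 ∧ |p| ≤ r ∧ Real.sqrt x / (H * S) ≤ (r : ℝ) ∧
          (r : ℝ) ≤ Real.sqrt x * S / H) ∨
       max 1 |(a : ℝ)| * max 1 |(b : ℝ)| * max 1 |(c : ℝ)| * max 1 |(d : ℝ)| ≤
         18720 * H ^ 4 / S) := by
  have hH0 : 0 < H := by linarith
  have hS0 : 0 < S := by linarith
  have hxr : (0 : ℝ) < x := by exact_mod_cast hx
  have hyr : (0 : ℝ) < y := by exact_mod_cast hy
  set t := Real.sqrt x with ht
  have ht0 : 0 < t := Real.sqrt_pos.2 hxr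
  have htt : (x : ℝ) = t ^ 2 := (Real.sq_sqrt hxr.le).symm
  set N := t / H with hNdef
  have hN0 : 0 < N := by positivity
  have htN : t = N * H := by rw [hNdef]; field_simp
  have hNS : 2 * S ≤ N := by rw [hNdef, le_div_iff₀ hH0]; exact hN
  have hN4 : 4 ≤ N := by linarith
  set e := ((y : ℝ) - t ^ 3) * N ^ 3 / H with he
  have hye : (y : ℝ) = t ^ 3 + e * H / N ^ 3 := by rw [he]; field_simp; ring
  have he1 : |e| ≤ 1 := by
    have h1 : ((y : ℝ) - t ^ 3) * (y + t ^ 3) = (y : ℝ) ^ 2 - (x : ℝ) ^ 3 := by rw [htt]; ring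
    have ht3 : 0 < t ^ 3 := by positivity
    have h2 : |(y : ℝ) - t ^ 3| * t ^ 3 ≤ H ^ 4 := by
      calc |(y : ℝ) - t ^ 3| * t ^ 3 ≤ |(y : ℝ) - t ^ 3| * (y + t ^ 3) := by gcongr; linarith
        _ = |((y : ℝ) - t ^ 3) * (y + t ^ 3)| := by
          rw [abs_mul, abs_of_pos (by linarith : 0 < (y : ℝ) + t ^ 3)]
        _ ≤ H ^ 4 := by rw [h1]; exact hk
    rw [he, abs_div, abs_mul, abs_of_pos hH0, abs_of_pos (by positivity : 0 < N ^ 3),
      div_le_one hH0]
    have h3 : |(y : ℝ) - t ^ 3| * N ^ 3 * H ^ 3 ≤ H * H ^ 3 := by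
      calc |(y : ℝ) - t ^ 3| * N ^ 3 * H ^ 3 = |(y : ℝ) - t ^ 3| * t ^ 3 := by rw [htN]; ring
        _ ≤ H ^ 4 := h2
        _ = H * H ^ 3 := by ring
    exact le_of_mul_le_mul_right h3 (by positivity)
  obtain ⟨a, q, hq, hc, hqN, hga⟩ := approx t N (by linarith)
  have hinvN : 1 / N ≤ 1 / 4 := one_div_le_one_div_of_le (by norm_num) hN4
  have hA := cA_ne_zero x y a q H hH hk0 hk hxH hq hc (hga.trans hinvN)
  -- the balanced conclusion
  have hbal : ∀ a q : ℤ, 0 < q → IsCoprime a q → N / S ≤ q → (q : ℝ) ≤ N * S →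
      |(a : ℝ) - q * t| ≤ 1 / N →
      ∃ a b c d p r : ℤ, Dv a b c d = 4 * (y ^ 2 - x ^ 3) ∧ a ≠ 0 ∧ |Fv a b c d p r| = 1 ∧
      Hv a b c d p r = x ∧
      ((|(a : ℝ)| ≤ 18 * H * S ^ 3 ∧ |(b : ℝ)| ≤ 18 * H * S ^ 3 ∧ |(c : ℝ)| ≤ 18 * H * S ^ 3 ∧
        |(d : ℝ)| ≤ 18 * H * S ^ 3 ∧ |p| ≤ r ∧ t / (H * S) ≤ (r : ℝ) ∧
          (r : ℝ) ≤ t * S / H) ∨
       max 1 |(a : ℝ)| * max 1 |(b : ℝ)| * max 1 |(c : ℝ)| * max 1 |(d : ℝ)| ≤
         18720 * H ^ 4 / S) := by
    intro a q hq hc hq1 hq2 hg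
    obtain ⟨b, s, h1, h2, h3, hA', hB', hC', hD'⟩ :=
      balanced x y a q H S t N e hH hS hNS htt htN hye he1 hq hc hq1 hq2 hg
    refine ⟨cA x y a q, cB x y a q b s, cC x y a q b s, cD x y b s, -s, q, ?_,
      cA_ne_zero x y a q H hH hk0 hk hxH hq hc (hg.trans hinvN), ?_, ?_, Or.inl ⟨hA', hB', hC', hD',
      ?_, ?_, ?_⟩⟩
    · rw [Dv_c, h1]; ring
    · rw [Fv_c, h1]; norm_num
    · rw [Hv_c, h1]; ring
    · rw [abs_neg, abs_of_nonneg h2]; exact h3
    · calc t / (H * S) = N / S := by rw [hNdef]; field_simp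
        _ ≤ q := hq1
    · calc (q : ℝ) ≤ N * S := hq2
        _ = t * S / H := by rw [hNdef]; ring
  rcases le_or_gt (N / S) q with hqS | hqS
  · refine hbal a q hq hc hqS (hqN.trans ?_) hga
    nlinarith
  · rcases lt_or_ge |(a : ℝ) - q * t| (1 / (N * S)) with hσ | hσ
    · obtain ⟨b, s, ε, hε, h1, h2⟩ := unbalanced x y a q H S t N e hH hS hNS htt htN hye he1 hq hc
        hqS hσ hA
      refine ⟨cA x y a q, cB x y a q b s, cC x y a q b s, cD x y b s, -s, q, ?_, hA, ?_, ?_,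
        Or.inr ?_⟩
      · rw [Dv_c, h1]
        rcases hε with h | h <;> rw [h] <;> ring
      · rw [Fv_c, h1]
        rcases hε with h | h <;> rw [h] <;> norm_num
      · rw [Hv_c, h1]
        rcases hε with h | h <;> rw [h] <;> ring
      · refine h2.trans (le_of_eq ?_)
        ring
    · have hσ0 : (a : ℝ) - q * t ≠ 0 := by
        intro h
        rw [h, abs_zero] at hσ
        have : 0 < 1 / (N * S) := by positivity
        linarith
      obtain ⟨b, s, ε, hε, h1, h2, h3, h4⟩ := near_completion a q hq hc t _ rfl hσ0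
      have hσpos : 0 < |(a : ℝ) - q * t| := abs_pos.2 hσ0
      have i1 : 1 / |(a : ℝ) - q * t| ≤ N * S := by
        rw [div_le_iff₀ hσpos]
        calc 1 = N * S * (1 / (N * S)) := by field_simp
          _ ≤ N * S * |(a : ℝ) - q * t| := by gcongr
      have i2 : N ≤ 1 / |(a : ℝ) - q * t| := by
        rw [le_div_iff₀ hσpos]
        calc N * |(a : ℝ) - q * t| ≤ N * (1 / N) := by gcongr
          _ = 1 := by field_simp
      have i3 : 2 * (N / S) ≤ N := by
        rw [← mul_div_assoc, div_le_iff₀ hS0]; nlinarith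
      have hsS : N / S ≤ s := by linarith
      have hspos : 0 < s := by
        have : (0 : ℝ) < s := lt_of_lt_of_le (by positivity) hsS
        exact_mod_cast this
      refine hbal b s hspos ?_ hsS (h3.trans i1) (h4.trans hga)
      rcases hε with h | h
      · exact ⟨-q, a, by rw [h] at h1; linarith⟩
      · exact ⟨q, -a, by rw [h] at h1; linarith⟩

end Pool.Agent.Work.MP_f2148a_nt.AV
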